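import Pool.Agent.Lib.MP_e9c977_fv.Final5C

/-!
# The set of f-vectors of 5-polytopes is not defined by polynomial inequalities and congruences
-/

namespace Pool.Agent.Results.MP_e9c977_co.DimensionFive

open Pool.Agent.FV

/-- No set of integer vectors given by a finite Boolean combination of polynomial inequalities
(with real coefficients) and congruences has exactly the f-vectors of 5-polytopes among its
nonnegative members. -/
theorem result :
    ¬ ∃ S : Set (Fin 5 → ℤ), SemialgCong 5 S ∧
      ∀ f : Fin 5 → ℕ, IsFVector 5 f ↔ (fun i => (f i : ℤ)) ∈ S :=
  not_semialgCong_five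

end Pool.Agent.Results.MP_e9c977_co.DimensionFive
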