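import Pool.Agent.Lib.MP_e9c977_fvb.Final

/-!
# The f-vectors of 4-polytopes close to the simplicial or to the simple ones

Every 4-polytope satisfies `f₂ ≥ 2 f₃`, with equality exactly for the simplicial ones.  We
determine the f-vectors of the 4-polytopes with `f₂ = 2 f₃ + e` and `f₀ ≥ 2 e + 9`, for every `e`,
and those with the reversed vector of this form.
-/

namespace Pool.Agent.Results.MP_e9c977_co.NearSimplicial

open Pool.Agent.FV

/-- The correction of the lower bound: `0` for even `e`, `2` for `e = 1`, `1` for odd `e ≥ 3`. -/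
def corr (e : ℕ) : ℕ := if Even e then 0 else if e = 1 then 2 else 1

/-- Let `g` be the vector `f` or the reversed vector, with `g₂ = 2 g₃ + e` and `g₀ ≥ 2 e + 9`; for
`e = 3` the value `g₁ = 4 g₀ - 18` is left out.  Then `f` is the f-vector of a 4-polytope if and
only if it satisfies the Euler relation and `4 g₀ - 10 - 3 e + corr e ≤ g₁ ≤ C(g₀, 2) - e`. -/
theorem result (f g : Fin 4 → ℕ) (hg : g = f ∨ g = ![f 3, f 2, f 1, f 0]) (e : ℕ)
    (h2 : g 2 = 2 * g 3 + e) (h0 : 2 * e + 9 ≤ g 0) (h3 : e = 3 → g 1 + 18 ≠ 4 * g 0) :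
    IsFVector 4 f ↔ g 0 + g 2 = g 1 + g 3 ∧ 4 * g 0 + corr e ≤ g 1 + 3 * e + 10 ∧
      g 1 + e ≤ (g 0).choose 2 := by
  have h := Pool.Agent.FVB.near_simplicial g e h2 h0 h3
  rcases hg with rfl | hg
  · exact h
  · rw [Pool.Agent.FVB.isFVector_reverse f, ← hg]
    exact h

end Pool.Agent.Results.MP_e9c977_co.NearSimplicial
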