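import Pool.Agent.Lib.MP_e9c977_fv.Final

/-!
# The set of f-vectors of 4-polytopes is not semialgebraic
-/

namespace Pool.Agent.Results.MP_e9c977_co.NotSemialgebraic

open Pool.Agent.FV

/-- No semialgebraic subset of `ℝ⁴` has exactly the f-vectors of 4-polytopes as its integer
points. -/
theorem result :
    ¬ ∃ S : Set (Fin 4 → ℝ), Semialg 4 S ∧
      ∀ f : Fin 4 → ℕ, IsFVector 4 f ↔ (fun i => (f i : ℝ)) ∈ S :=
  not_semialgebraic

end Pool.Agent.Results.MP_e9c977_co.NotSemialgebraic
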