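import Pool.Agent.Lib.MP_e9c977_fv.Final

/-!
# The f-vectors of 4-polytopes with `2 (f₁ + f₂) + 10 = 5 (f₀ + f₃)`

All 4-polytopes satisfy `2 (f₁ + f₂) + 10 ≥ 5 (f₀ + f₃)`.  We determine exactly which vectors on
this hyperplane are f-vectors of 4-polytopes.
-/

namespace Pool.Agent.Results.MP_e9c977_co.TightFace

open Pool.Agent.FV

/-- On the hyperplane `2 (f₁ + f₂) + 10 = 5 (f₀ + f₃)` the f-vectors of 4-polytopes are exactly
the vectors `(5 + a + 3b, 10 + 4a + 6b, 10 + 6a + 4b, 5 + 3a + b)` with natural numbers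
`a`, `b`. -/
theorem result (f : Fin 4 → ℕ) (hf : 2 * (f 1 + f 2) + 10 = 5 * (f 0 + f 3)) :
    IsFVector 4 f ↔ ∃ a b : ℕ,
      f = ![5 + a + 3 * b, 10 + 4 * a + 6 * b, 10 + 6 * a + 4 * b, 5 + 3 * a + b] :=
  tight_iff f hf

end Pool.Agent.Results.MP_e9c977_co.TightFace
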